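import Pool.Agent.Run7.h19.HP.Iface

/-! # Project HP, piece DY: the degree of a space of dimension `τ - 2`, case `τ + 1 = k` -/

set_option autoImplicit false

open Module Submodule Finset Pool.Agent.H99.SubDeg

namespace Run7.h872.HP

open Run7.h19.HP

open scoped Classical in
theorem t_DY (hLM : S_LM) : S_DY := by
  intro K _ _ V _ _ _ k τ F T h hτ Y hY
  have hk := h.hk
  have hτ2 := h.hτ2
  have hint := h.hF.1.2
  have hpc : ∀ A ∈ F, (pts A).card = 2 ^ k - 1 := by
    intro A hA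
    have h1 := pts_card A
    rw [h.hq, h.hF.1.1 A hA] at h1
    simpa using h1
  have hex : ∀ Z : Submodule K V, finrank K Z < τ → ∃ A : Submodule K V, A ∈ F ∧ A ⊓ Z = ⊥ := by
    intro Z hZ
    have h1 := h.hmin Z hZ
    unfold Transv at h1
    push Not at h1
    obtain ⟨A, hA, hAZ⟩ := h1
    exact ⟨A, hA, hAZ⟩
  choose! g hg using hex
  have hsup : ∀ (Z Q : Submodule K V), finrank K Z < τ → Q ∈ pts (g Z) →
      finrank K (Z ⊔ Q : Submodule K V) = finrank K Z + 1 := by
    intro Z Q hZ hQ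
    simp only [pts, Finset.mem_filter, Finset.mem_univ, true_and] at hQ
    apply finrank_sup_point Z Q hQ.1
    intro h'
    have : Q ≤ g Z ⊓ Z := le_inf hQ.2 h'
    rw [(hg Z hZ).2, le_bot_iff] at this
    exact point_ne_bot hQ.1 this
  have hYτ : finrank K Y < τ := by omega
  have hd1 : ∀ R ∈ pts (g Y), finrank K (Y ⊔ R : Submodule K V) + 1 = τ := by
    intro R hR
    have := hsup Y R hYτ hR
    omega
  set NN : Finset (Submodule K V) := (pts (g Y)).biUnion
    (fun R => (pts (g (Y ⊔ R))).image (fun Q => Y ⊔ R ⊔ Q)) with hNN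
  have hNNc : NN.card ≤ (2 ^ k - 1) * (2 ^ k - 1) := by
    rw [← hpc (g Y) (hg Y hYτ).1]
    refine Finset.card_biUnion_le_card_mul _ _ _ fun R hR => ?_
    refine Finset.card_image_le.trans ?_
    rw [hpc _ (hg Y hYτ).1, hpc _ (hg (Y ⊔ R) (by have := hd1 R hR; omega)).1]
  have hNNm : ∀ N ∈ NN, Y ≤ N ∧ finrank K N = τ := by
    intro N hN
    rw [hNN, Finset.mem_biUnion] at hN
    obtain ⟨R, hR, hN⟩ := hN
    rw [Finset.mem_image] at hN
    obtain ⟨Q, hQ, rfl⟩ := hN
    have e1 := hd1 R hR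
    have e2 := hsup (Y ⊔ R) Q (by omega) hQ
    exact ⟨le_sup_left.trans le_sup_left, by omega⟩
  have hcover : deg F Y ≤ ∑ N ∈ NN, deg F N := by
    have hsub : F.filter (fun A => Y ≤ A) ⊆ NN.biUnion (fun N => F.filter (fun A => N ≤ A)) := by
      intro A hA
      rw [Finset.mem_filter] at hA
      obtain ⟨R, hR1, hR2⟩ := exists_pt (A ⊓ g Y) (hint A hA.1 _ (hg Y hYτ).1)
      have hR : R ∈ pts (g Y) := by
        simp only [pts, Finset.mem_filter, Finset.mem_univ, true_and]
        exact ⟨hR1, hR2.trans inf_le_right⟩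
      have e1 := hd1 R hR
      obtain ⟨Q, hQ1, hQ2⟩ := exists_pt (A ⊓ g (Y ⊔ R)) (hint A hA.1 _ (hg (Y ⊔ R) (by omega)).1)
      have hQ : Q ∈ pts (g (Y ⊔ R)) := by
        simp only [pts, Finset.mem_filter, Finset.mem_univ, true_and]
        exact ⟨hQ1, hQ2.trans inf_le_right⟩
      rw [Finset.mem_biUnion]
      refine ⟨Y ⊔ R ⊔ Q, ?_, ?_⟩
      · rw [hNN, Finset.mem_biUnion]
        exact ⟨R, hR, Finset.mem_image.mpr ⟨Q, hQ, rfl⟩⟩
      · rw [Finset.mem_filter]
        exact ⟨hA.1, sup_le (sup_le hA.2 (hR2.trans inf_le_left)) (hQ2.trans inf_le_left)⟩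
    exact (Finset.card_le_card hsub).trans Finset.card_biUnion_le
  have hbt : bb k τ ≤ 4 * 2 ^ k := by
    rw [bb, show 2 * k + 1 - τ = k + 2 by omega, show k - τ = 1 by omega]
    have e : gb 2 (k + 2) 1 = 2 ^ (k + 2) - 1 := by
      simp [gb]
    rw [e, pow_add]
    omega
  have hbk : bb k k = 1 := by
    simp [bb, gb]
  have hN : ∀ N ∈ NN, deg F N ≤ 2 ^ k + (if Transv F N then 3 * 2 ^ k else 0) := by
    intro N hN
    obtain ⟨hN1, hN2⟩ := hNNm N hN
    by_cases ht : Transv F N
    · rw [if_pos ht]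
      have := deg_bb h F (Finset.Subset.refl F) N (by omega)
      rw [hN2] at this
      omega
    · rw [if_neg ht]
      unfold Transv at ht
      push Not at ht
      obtain ⟨G, hG, hGN⟩ := ht
      have h1 := branching F N G (fun B hB => hint B hB G hG) 1 (by
        intro Q hQ
        simp only [pts, Finset.mem_filter, Finset.mem_univ, true_and] at hQ
        have h2 : finrank K (N ⊔ Q : Submodule K V) = k := by
          rw [finrank_sup_point N Q hQ.1]
          · omega
          · intro h'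
            have : Q ≤ G ⊓ N := le_inf hQ.2 h'
            rw [hGN, le_bot_iff] at this
            exact point_ne_bot hQ.1 this
        have h3 := deg_bb h F (Finset.Subset.refl F) (N ⊔ Q) (by omega)
        rwa [h2, hbk] at h3)
      rw [hpc G hG] at h1
      omega
  have hT : 16 * (NN.filter (fun N => Transv F N)).card ≤ 13 * 4 ^ k := by
    refine le_trans (Nat.mul_le_mul_left _ (Finset.card_le_card ?_))
      (hLM K V k τ F T h (by omega) Y hY)
    intro N hN
    rw [Finset.mem_filter] at hN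
    obtain ⟨e1, e2⟩ := hNNm N hN.1
    simp only [TT, Finset.mem_filter, Finset.mem_univ, true_and]
    exact ⟨⟨e2, hN.2⟩, e1⟩
  have hsum : ∑ N ∈ NN, deg F N ≤ NN.card * 2 ^ k
      + (NN.filter (fun N => Transv F N)).card * (3 * 2 ^ k) := by
    refine (Finset.sum_le_sum hN).trans ?_
    rw [Finset.sum_add_distrib, Finset.sum_const, smul_eq_mul, ← Finset.sum_filter,
      Finset.sum_const, smul_eq_mul]
  have hp : (2 ^ k - 1 : ℕ) ≤ 2 ^ k := Nat.sub_le _ _
  have h4 : NN.card ≤ 4 ^ k := by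
    refine hNNc.trans ((Nat.mul_le_mul hp hp).trans (le_of_eq ?_))
    rw [← mul_pow]
    norm_num
  have h8 : (8 : ℕ) ^ k = 4 ^ k * 2 ^ k := by
    rw [← mul_pow]
    norm_num
  calc 16 * deg F Y ≤ 16 * (NN.card * 2 ^ k
        + (NN.filter (fun N => Transv F N)).card * (3 * 2 ^ k)) :=
          Nat.mul_le_mul_left _ (hcover.trans hsum)
    _ = 16 * NN.card * 2 ^ k + 3 * (16 * (NN.filter (fun N => Transv F N)).card) * 2 ^ k := by ring
    _ ≤ 16 * 4 ^ k * 2 ^ k + 3 * (13 * 4 ^ k) * 2 ^ k :=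
        Nat.add_le_add (Nat.mul_le_mul_right _ (Nat.mul_le_mul_left _ h4))
          (Nat.mul_le_mul_right _ (Nat.mul_le_mul_left _ hT))
    _ = 55 * 8 ^ k := by rw [h8]; ring

end Run7.h872.HP
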