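import Pool.Agent.Run7.h19.HP.Iface

/-! # Project HP, piece NPOP: lines which are not popular -/

set_option autoImplicit false

open Module Submodule Finset Pool.Agent.H99.SubDeg

namespace Run7.h872.HP

open Run7.h19.HP

theorem bsteps (K : Type) [Field K] [Finite K] (hq : Nat.card K = 2) (k j : ℕ) (hj : 2 + j ≤ k) :
    2 ^ ((k + 1) * j) * bb k (2 + j) ≤ bb k 2 := by
  have h1 := gb_steps (K := K) (2 * k + 1) k (by omega) j hj
  rw [hq, show 2 * k + 1 - k = k + 1 by omega] at h1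
  exact h1

open scoped Classical in
theorem t_NPOP : S_NPOP := by
  intro K _ _ V _ _ _ k τ F T h hτ L hL2 hL
  have hk := h.hk
  have hτ2 := h.hτ2
  have hLt : ¬ Transv F L := fun h' => hL ⟨hL2, Or.inl h'⟩
  have hLc : ∀ j, 3 ≤ j → j ≤ τ + 3 → (MTL F L j).card ≤ 2 ^ (τ + 3) * (2 ^ k - 1) ^ (j - 3) := by
    intro j h3 h4
    by_contra h5
    exact hL ⟨hL2, Or.inr ⟨j, h3, h4, not_le.mp h5⟩⟩
  set GG : Finset (Submodule K V) := F.filter (fun A => ∀ S : Submodule K V, L ≤ S → Transv F S →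
    finrank K S < τ + 4 → ¬ S ≤ A) with hGG
  have hGGF : GG ⊆ F := Finset.filter_subset _ _
  have hG1 : deg GG L ≤ (2 ^ k - 1) ^ (τ + 2) * bb k (τ + 4) := by
    refine iter h GG L (τ + 4) (bb k (τ + 4)) ?_ ?_ ?_ (τ + 2) L le_rfl (by omega)
    · intro A hA B hB
      exact h.hF.1.2 A (hGGF hA) B hB
    · intro A hA S hLS hS hSj
      exact (Finset.mem_filter.mp hA).2 S hLS hS hSj
    · intro S _ hS
      have := deg_bb h GG hGGF S (by omega)
      rwa [hS] at this
  have hcover : deg F L ≤ deg GG L + ∑ i ∈ range 4, (MTL F L (τ + i)).card * bb k (τ + i) := by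
    have hsub : F.filter (fun A => L ≤ A) ⊆ GG.filter (fun A => L ≤ A)
        ∪ (range 4).biUnion (fun i => (MTL F L (τ + i)).biUnion
          (fun S => F.filter (fun A => S ≤ A))) := by
      intro A hA
      rw [Finset.mem_filter] at hA
      rw [Finset.mem_union]
      by_cases hA2 : ∀ S : Submodule K V, L ≤ S → Transv F S → finrank K S < τ + 4 → ¬ S ≤ A
      · refine Or.inl ?_
        rw [Finset.mem_filter, hGG, Finset.mem_filter]
        exact ⟨⟨hA.1, hA2⟩, hA.2⟩
      · push Not at hA2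
        obtain ⟨S0, h1, h2, h3, h4⟩ := hA2
        have hex : ∃ d, ∃ S : Submodule K V, L ≤ S ∧ Transv F S ∧ S ≤ A ∧ finrank K S = d :=
          ⟨_, S0, h1, h2, h4, rfl⟩
        obtain ⟨S, h5, h6, h7, h8⟩ := Nat.find_spec hex
        have h9 : Nat.find hex ≤ finrank K S0 := Nat.find_min' hex ⟨S0, h1, h2, h4, rfl⟩
        have h10 : τ ≤ Nat.find hex := by
          by_contra h11
          exact h.hmin S (by omega) h6
        refine Or.inr ?_
        rw [Finset.mem_biUnion]
        refine ⟨Nat.find hex - τ, Finset.mem_range.mpr (by omega), ?_⟩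
        rw [Finset.mem_biUnion]
        refine ⟨S, ?_, ?_⟩
        · simp only [MTL, Finset.mem_filter, Finset.mem_univ, true_and]
          refine ⟨by omega, h6, h5, ?_⟩
          intro S' e1 e2 e3 e4
          have := Nat.find_min' hex ⟨S', e1, e2, e4.trans h7, rfl⟩
          omega
        · rw [Finset.mem_filter]
          exact ⟨hA.1, h7⟩
    rw [deg, deg]
    refine (Finset.card_le_card hsub).trans ((Finset.card_union_le _ _).trans ?_)
    refine Nat.add_le_add_left (Finset.card_biUnion_le.trans (Finset.sum_le_sum fun i hi => ?_)) _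
    have hi4 := Finset.mem_range.mp hi
    refine Finset.card_biUnion_le_card_mul _ _ _ fun S hS => ?_
    simp only [MTL, Finset.mem_filter, Finset.mem_univ, true_and] at hS
    have := deg_bb h F (Finset.Subset.refl F) S (by omega)
    rw [hS.1] at this
    exact this
  -- numerical part
  have hp : (2 ^ k - 1 : ℕ) ≤ 2 ^ k := Nat.sub_le _ _
  have hnG : 2 * (2 ^ (τ + 1) * ((2 ^ k - 1) ^ (τ + 2) * bb k (τ + 4))) ≤ bb k 2 := by
    have h1 := bsteps K h.hq k (τ + 2) (by omega)
    rw [show 2 + (τ + 2) = τ + 4 by omega] at h1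
    refine le_trans ?_ h1
    calc 2 * (2 ^ (τ + 1) * ((2 ^ k - 1) ^ (τ + 2) * bb k (τ + 4)))
        = 2 ^ (τ + 2) * (2 ^ k - 1) ^ (τ + 2) * bb k (τ + 4) := by ring
      _ ≤ 2 ^ (τ + 2) * (2 ^ k) ^ (τ + 2) * bb k (τ + 4) :=
          Nat.mul_le_mul_right _ (Nat.mul_le_mul_left _ (Nat.pow_le_pow_left hp _))
      _ = 2 ^ ((k + 1) * (τ + 2)) * bb k (τ + 4) := by
          rw [← pow_mul, ← pow_add]
          congr 2
          ring
  have hnM : ∀ i, i < 4 → 2 ^ (i + 2) * (2 ^ (τ + 1) * ((MTL F L (τ + i)).card * bb k (τ + i)))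
      ≤ bb k 2 := by
    intro i hi
    by_cases h3 : 3 ≤ τ + i
    · have h1 := bsteps K h.hq k (τ + i - 2) (by omega)
      rw [show 2 + (τ + i - 2) = τ + i by omega] at h1
      refine le_trans ?_ h1
      have h2 := hLc (τ + i) h3 (by omega)
      obtain ⟨m, hm⟩ : ∃ m, τ + i = m + 3 := ⟨τ + i - 3, by omega⟩
      rw [show τ + i - 2 = m + 1 by omega]
      rw [show τ + i - 3 = m by omega] at h2
      calc 2 ^ (i + 2) * (2 ^ (τ + 1) * ((MTL F L (τ + i)).card * bb k (τ + i)))
          = (2 ^ (i + 2) * 2 ^ (τ + 1) * (MTL F L (τ + i)).card) * bb k (τ + i) := by ring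
        _ ≤ (2 ^ (i + 2) * 2 ^ (τ + 1) * (2 ^ (τ + 3) * (2 ^ k - 1) ^ m)) * bb k (τ + i) :=
            Nat.mul_le_mul_right _ (Nat.mul_le_mul_left _ h2)
        _ ≤ (2 ^ (i + 2) * 2 ^ (τ + 1) * (2 ^ (τ + 3) * (2 ^ k) ^ m)) * bb k (τ + i) :=
            Nat.mul_le_mul_right _ (Nat.mul_le_mul_left _ (Nat.mul_le_mul_left _
              (Nat.pow_le_pow_left hp _)))
        _ = 2 ^ (i + 2 + (τ + 1) + (τ + 3) + k * m) * bb k (τ + i) := by
            rw [← pow_mul]
            ring
        _ ≤ 2 ^ ((k + 1) * (m + 1)) * bb k (τ + i) := by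
            refine Nat.mul_le_mul_right _ (Nat.pow_le_pow_right (by norm_num) ?_)
            have e : (k + 1) * (m + 1) = k * m + k + m + 1 := by ring
            rw [e]
            omega
    · have h0 : (MTL F L (τ + i)).card = 0 := by
        rw [Finset.card_eq_zero, Finset.eq_empty_iff_forall_notMem]
        intro S hS
        simp only [MTL, Finset.mem_filter, Finset.mem_univ, true_and] at hS
        have : L = S := eq_of_le_of_finrank_eq hS.2.2.1 (by omega)
        exact hLt (this ▸ hS.2.1)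
      rw [h0]
      simp
  have e0 := hnM 0 (by norm_num)
  have e1 := hnM 1 (by norm_num)
  have e2 := hnM 2 (by norm_num)
  have e3 := hnM 3 (by norm_num)
  rw [Finset.sum_range_succ, Finset.sum_range_succ, Finset.sum_range_succ,
    Finset.sum_range_succ, Finset.sum_range_zero] at hcover
  set a0 := (MTL F L (τ + 0)).card * bb k (τ + 0) with ha0
  set a1 := (MTL F L (τ + 1)).card * bb k (τ + 1) with ha1
  set a2 := (MTL F L (τ + 2)).card * bb k (τ + 2) with ha2
  set a3 := (MTL F L (τ + 3)).card * bb k (τ + 3) with ha3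
  have hfin : 2 ^ (τ + 1) * deg F L ≤ 2 ^ (τ + 1) * ((2 ^ k - 1) ^ (τ + 2) * bb k (τ + 4))
      + 2 ^ (τ + 1) * a0 + 2 ^ (τ + 1) * a1 + 2 ^ (τ + 1) * a2 + 2 ^ (τ + 1) * a3 := by
    rw [← Nat.mul_add, ← Nat.mul_add, ← Nat.mul_add, ← Nat.mul_add]
    refine Nat.mul_le_mul_left _ ?_
    omega
  norm_num at e0 e1 e2 e3
  omega

end Run7.h872.HP
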