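import Pool.Agent.Run7.h19.HP.Iface

/-! # Project HP, piece MEET: popular lines meet -/

set_option autoImplicit false

open Module Submodule Finset Pool.Agent.H99.SubDeg

namespace Run7.h872.HP

open Run7.h19.HP

open scoped Classical in
/-- a popular line meets every small space which meets its minimal transversals -/
theorem key {K : Type} [Field K] [Finite K] {V : Type} [AddCommGroup V] [Module K V] [Finite V]
    {k τ : ℕ} {F : Finset (Submodule K V)} {T : Submodule K V} (h : Cfg k τ F T)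
    (L G : Submodule K V) (j : ℕ) (hL : finrank K L = 2) (hj : 3 ≤ j)
    (hc : 2 ^ (τ + 3) * (2 ^ k - 1) ^ (j - 3) < (MTL F L j).card)
    (hG : finrank K G ≤ τ + 3) (hGm : ∀ A ∈ MTL F L j, A ⊓ G ≠ ⊥) : L ⊓ G ≠ ⊥ := by
  intro h0
  have hm : ∀ A, A ∈ MTL F L j ↔ finrank K A = j ∧ Transv F A ∧ L ≤ A ∧
      ∀ S' : Submodule K V, L ≤ S' → Transv F S' → finrank K S' < j → ¬ S' ≤ A := by
    intro A
    simp [MTL]
  have hdeg : deg (MTL F L j) L = (MTL F L j).card := by
    rw [deg]
    congr 1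
    apply Finset.filter_true_of_mem
    intro A hA
    exact ((hm A).mp hA).2.2.1
  have h1 := branching (MTL F L j) L G hGm ((2 ^ k - 1) ^ (j - 3) * 1) (by
    intro Q hQ
    simp only [pts, Finset.mem_filter, Finset.mem_univ, true_and] at hQ
    refine iter h (MTL F L j) L j 1 ?_ ?_ ?_ (j - 3) (L ⊔ Q) le_sup_left ?_
    · intro A hA B hB
      rw [inf_comm]
      exact ((hm A).mp hA).2.1 B hB
    · intro A hA S hLS hS hSj
      exact ((hm A).mp hA).2.2.2 S hLS hS hSj
    · intro S _ hS
      rw [deg, Finset.card_le_one]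
      intro A hA B hB
      simp only [Finset.mem_filter] at hA hB
      have e1 := ((hm A).mp hA.1).1
      have e2 := ((hm B).mp hB.1).1
      rw [← eq_of_le_of_finrank_eq hA.2 (by omega), ← eq_of_le_of_finrank_eq hB.2 (by omega)]
    · rw [finrank_sup_point L Q hQ.1, hL]
      · omega
      · intro h'
        have : Q ≤ L ⊓ G := le_inf h' hQ.2
        rw [h0, le_bot_iff] at this
        exact point_ne_bot hQ.1 this)
  rw [hdeg] at h1
  have h2 : (pts G).card ≤ 2 ^ (τ + 3) := by
    have h3 := pts_card G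
    rw [h.hq] at h3
    have h4 : (2 : ℕ) ^ finrank K G ≤ 2 ^ (τ + 3) := Nat.pow_le_pow_right (by norm_num) hG
    have h5 : (pts G).card = 2 ^ finrank K G - 1 := by simpa using h3
    rw [h5]
    exact (Nat.sub_le _ _).trans h4
  have h6 := Nat.mul_le_mul_right ((2 ^ k - 1) ^ (j - 3) * 1) h2
  rw [mul_one] at h1 h6
  omega

theorem t_MEET : S_MEET := by
  intro K _ _ V _ _ _ k τ F T h hτ L L' hL hL'
  have hk := h.hk
  have hn : 2 * k ≤ finrank K V := by rw [h.hn]; omega
  have htm : ∀ A B : Submodule K V, finrank K A ≤ k → finrank K B ≤ k → Transv F A → Transv F B →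
      A ⊓ B ≠ ⊥ := fun A B hA hB hAt hBt =>
    transv_meet k F (by omega) hn h.hF A B hA hB hAt hBt
  obtain ⟨hL2, hLp⟩ := hL
  obtain ⟨hL2', hLp'⟩ := hL'
  have hmm : ∀ (M : Submodule K V) (j : ℕ) (A : Submodule K V), A ∈ MTL F M j →
      finrank K A = j ∧ Transv F A := by
    intro M j A hA
    simp only [MTL, Finset.mem_filter, Finset.mem_univ, true_and] at hA
    exact ⟨hA.1, hA.2.1⟩
  rcases hLp with hLt | ⟨j, hj3, hjτ, hc⟩
  · rcases hLp' with hLt' | ⟨j', hj3', hjτ', hc'⟩
    · exact htm L L' (by omega) (by omega) hLt hLt'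
    · rw [inf_comm]
      refine key h L' L j' hL2' hj3' hc' (by omega) ?_
      intro A hA
      obtain ⟨e1, e2⟩ := hmm _ _ _ hA
      exact htm A L (by omega) (by omega) e2 hLt
  · rcases hLp' with hLt' | ⟨j', hj3', hjτ', hc'⟩
    · refine key h L L' j hL2 hj3 hc (by omega) ?_
      intro A hA
      obtain ⟨e1, e2⟩ := hmm _ _ _ hA
      exact htm A L' (by omega) (by omega) e2 hLt'
    · refine key h L L' j hL2 hj3 hc (by omega) ?_
      intro A hA
      obtain ⟨e1, e2⟩ := hmm _ _ _ hA
      rw [inf_comm]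
      refine key h L' A j' hL2' hj3' hc' (by omega) ?_
      intro B hB
      obtain ⟨e3, e4⟩ := hmm _ _ _ hB
      exact htm B A (by omega) (by omega) e4 e2

end Run7.h872.HP
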